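import Pool.Agent.Helper28.OHS.Goals

/-!
# Packet OHS-CHK (MP_c578c8_lc): soundness of the checks
-/

namespace Pool.Agent.Helper26.OHS

open Pool.Agent.Helper65.LinSpace Pool.Agent.Helper78.Mpc Pool.Agent.Helper28.Ram Finset
open Pool.Agent.Helper65.OH (Prm OneHead Conf Par InBox co bz GoodQ Fns)
open Pool.Agent.Helper28.Few (mcf macro_sound)
open Pool.Agent.Helper28.OHS

section
variable {D : ℕ} {A : OneHead D} {eA eN eW c₀ : ℕ} {w y : List Bool} {m : Prm}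
  {e : Pool.Agent.Helper81.Sus2.Prm}

theorem par_sh (hP : Par A eA eN eW c₀ w y m) (o : ℕ) : Par A eA eN eW c₀ w y (sh m o) :=
  ⟨hP.h_eA, hP.h_eN, hP.h_eW, hP.h_st, hP.h_x, hP.h_y, hP.h_D, hP.pos_D, hP.pos_κ, hP.pos_d,
    hP.h_σ, hP.h_a, hP.h_Λ, hP.h_β, hP.h_B⟩

theorem fns_sh (hF : Fns A m) (o : ℕ) : Fns A (sh m o) := ⟨hF.addr, hF.next, hF.write⟩

theorem rep_sh {c : ℕ} {C : Conf D} (hc : Rep m e c C) (o : ℕ) : Rep (sh m o) e c C :=
  ⟨hc.ne, ⟨hc.good.lt, hc.good.wq, hc.good.len, hc.good.cq⟩, hc.ct⟩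

/-- One macro run with the result `1`. -/
theorem one (hS : SND_stmt) (hP : Par A eA eN eW c₀ w y m) (hF : Fns A m) (hsg : m.sg ≤ e.V + 1)
    {o : ℕ} (ho : o < m.d) (c d a τ t h T : ℕ) (hc : Rep m e c (A.conf w y t))
    (h1 : (mcf (wA (sh m o) e τ a) (wN (sh m o) e τ d a) (wW (sh m o) τ) h
      (w0 (sh m o) e c) (cm (sh m o) e c) T).1 = 1) :
    (d = 0 → A.AcceptsAt w y (t + τ)) ∧
    (d ≠ 0 → GoodQ m (A.conf w y (t + τ)) (cs m d) ∧
      ∀ p, InBox m.κ p → a = cd m p + 1 →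
        cn m e d (cellN m.κ (co m.κ p) m.D) = capN m.S (num ((A.conf w y (t + τ)).M p))) := by
  obtain ⟨t', ht'⟩ := macro_sound (A := wA (sh m o) e τ a) (N := wN (sh m o) e τ d a)
    (W := wW (sh m o) τ) (q := w0 (sh m o) e c) (M := cm (sh m o) e c) h T
  rw [ht'] at h1
  obtain ⟨g1, g2⟩ := hS A eA eN eW c₀ w y (sh m o) e (par_sh hP o) ho (fns_sh hF o) hsg c d a τ t t'
    (rep_sh hc o) h1
  refine ⟨g1, fun hd => ?_⟩
  obtain ⟨g3, g4⟩ := g2 hd
  exact ⟨⟨g3.lt, g3.wq, g3.len, g3.cq⟩, g4⟩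

end

theorem lt01_ne {x y : ℕ} (h : lt01 x y ≠ 0) : x < y := by
  unfold lt01 at h
  by_contra hc
  rw [if_neg hc] at h
  exact h rfl

theorem eq01_ne {x y : ℕ} (h : eq01 x y ≠ 0) : x = y := by
  unfold eq01 at h
  by_contra hc
  rw [if_neg hc] at h
  exact h rfl

theorem chk (hS : SND_stmt) (hC : CUB_stmt) : CHK_stmt where
  chk := by
    intro D A eA eN eW c₀ w y m e hP hF hsg F h T hFe c τ d t hc hne
    unfold Pool.Agent.Helper28.OHS.chk at hne
    have h1 := lt01_ne (left_ne_zero_of_mul hne)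
    have hne2 := right_ne_zero_of_mul hne
    have h2 := lt01_ne (left_ne_zero_of_mul hne2)
    have h3 := lt01_ne (right_ne_zero_of_mul hne2)
    obtain ⟨o, ho, h4⟩ : ∃ o ∈ range m.d,
        eq01 (∑ a ∈ range (2 ^ (m.κ * m.D) + 1), (1 - eq01 (F c d τ o a) 1)) 0 ≠ 0 := by
      by_contra hcon
      push Not at hcon
      rw [Finset.sum_eq_zero hcon] at h3
      exact lt_irrefl 0 h3
    rw [mem_range] at ho
    have h5 := eq01_ne h4
    have h6 : ∀ a, a ≤ 2 ^ (m.κ * m.D) → F c d τ o a = 1 := by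
      intro a ha
      have h7 : 1 - eq01 (F c d τ o a) 1 = 0 :=
        (Finset.sum_eq_zero_iff.1 h5) a (mem_range.2 (Nat.lt_succ_of_le ha))
      refine eq01_ne (y := 1) ?_
      intro h8
      rw [h8] at h7
      exact absurd h7 (by norm_num)
    have h9 : ∀ a, a ≤ 2 ^ (m.κ * m.D) →
        GoodQ m (A.conf w y (t + τ)) (cs m d) ∧
        ∀ p, InBox m.κ p → a = cd m p + 1 →
          cn m e d (cellN m.κ (co m.κ p) m.D) = capN m.S (num ((A.conf w y (t + τ)).M p)) := by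
      intro a ha
      have h10 := h6 a ha
      rw [hFe] at h10
      exact (one hS hP hF hsg ho c d a τ t h T hc h10).2 (by omega)
    refine ⟨⟨by omega, (h9 0 (Nat.zero_le _)).1, fun p hp => ?_⟩, h1⟩
    have h11 := (hC.cell m p hP.h_D hp).2.2.1
    exact (h9 (cd m p + 1) h11).2 p hp rfl
  ac := by
    intro D A eA eN eW c₀ w y m e hP hF hsg F h T hFe c τ t hc hne
    unfold Pool.Agent.Helper28.OHS.ac at hne
    have h3 := lt01_ne hne
    obtain ⟨o, ho, h4⟩ : ∃ o ∈ range m.d, eq01 (F c 0 τ o 0) 1 ≠ 0 := by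
      by_contra hcon
      push Not at hcon
      rw [Finset.sum_eq_zero hcon] at h3
      exact lt_irrefl 0 h3
    rw [mem_range] at ho
    have h5 := eq01_ne h4
    rw [hFe] at h5
    exact ⟨_, (one hS hP hF hsg ho c 0 0 τ t h T hc h5).1 rfl⟩

end Pool.Agent.Helper26.OHS
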